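import Mathlib
import Pool.Agent.H395.Local.MT

/-!
# The Mumford-Tate conjecture for abelian varieties: one Frobenius element, and local conditions
on the classes of the embeddings of its CM fields

**Classes.** Let `K i` (`i` in a finite set) be CM fields, `X` the set of all complex embeddings
of all fields `K i` and `x ↦ x̄` the complex conjugation. Two elements `x`, `y` of `X` are
*flipped* if some automorphism of `ℂ` maps one of them to itself and the other one to its
conjugate, or maps `x` to `y` and `y` to `x̄`. The classes are those of the equivalence relation
generated by the pairs which are not flipped (`SameClass`); a class is stable under the complex
conjugation. For the typical family of CM fields each class is a pair `x`, `x̄`. The fields of the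
family are arbitrary: fields which are not independent of each other can have embeddings in the
same class.

**Types.** Let `p` be a prime number, `π i` a Weil number in `K i` all powers of which generate `K
i`. For `x : K i → ℂ` let `q(x)` be twice the difference of the slope of `x(π i)` and the middle
slope (`IsDeviation`). Suppose that every field `K i` has **one** embedding whose class is of one
of the following types (`LocalType`, `LocalTypes`); the type may depend on `i`.

* *Dominated*: for each field with an embedding in the class there is an embedding `z` of this
  field such that `2 |q(z)| > ∑ |q(w)|`, the sum over the `w ≠ z, z̄` **in the class of `z`**, not
  over all embeddings; or, for some prime number `ℓ`, such that `|q(z)|_ℓ > |q(w)|_ℓ` for these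
  `w`. Here one can use arbitrary positive weights of the fields (`DominatedType`).
* *Unitary*: the class consists of translates of `x`, it is the union of a block `R` and of its
  conjugate, `R` has `r ^ k` elements, `r` a prime number, `∑ q ≠ 0` over `R`, and `q = α n + β`
  on `R` with integers `n` whose sum over `R` is not divisible by `r` (`UnitaryType`).
* *Primitive*: the class consists of translates of `x` and has `b` pairs, where `b` is one, or
  prime, or `b = [K i : F]` for a CM subfield `F` such that the automorphisms of `ℂ` act doubly
  transitively on the extensions of an embedding of `F`; and for the CM subfields `F` with `[K i :
  F] = b` the norm of `π i` to `F` is not supersingular (`PrimitiveType`).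
* *Irreducible*: the rational functions on the class which change their sign under complex
  conjugation are an irreducible representation of the automorphisms of `ℂ` which preserve the
  class (`IrreducibleType`).
* Two types that are copied from the library, `OddType` (the class has one pair, a prime number of
  pairs, an odd number of pairs which are permuted doubly transitively, or a power of two and an
  odd permutation; the deviations are odd multiples of one number) and `SumType` (the class has `r
  ^ k` pairs, `r` prime, and the `q(w)` are proportional to integers whose sums over the half
  systems of the class are not divisible by `r`).

**The theorem** (`MumfordTateFor`). Let `A` be an abelian variety over a number field or a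
finitely generated subfield of `ℂ`. Suppose that for **one** closed point of good reduction, with
residue field of `p ^ a` elements, the characteristic polynomial of the Frobenius element is the
product of the minimal polynomials of Weil numbers `π i`, `π i * conj (π i) = p ^ a`, for which
the hypothesis `LocalTypes` is satisfied. Then **all Tate classes in the tensor powers of `H^1(A)`
are linear combinations of Hodge classes, and even of products of Hodge classes of degree two**
(`MumfordTateStrong`). Together with the theorem of Deligne (Hodge classes are Tate classes) this
is the equality of the Mumford-Tate group over `ℚ_ℓ` and of the connected component of the
`ℓ`-adic monodromy group, both of which are reductive and so determined by their invariants. It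
holds for all `ℓ` and, since the hypothesis is on one Frobenius element only, nothing is assumed
about the endomorphisms, the dimension or the type of `A`; and it gives the group: it is the
Lefschetz group of `A`. In the Lean statement `W` is `H_1(A, ℚ)`, `T` the tangent space at the
origin and `per` the inclusion, `ω₀` the form given by a polarization; `V` is the rational Tate
module with the comparison map `comp` from `W`, the action `ρ` of the Galois group and the Weil
pairing `ω`; `χ` is the cyclotomic character (`IsRealization`, library; it contains the two
theorems of Faltings, semisimplicity and the Tate conjecture for endomorphisms).

**What was known.** The conjecture is known for elliptic curves, in prime dimension (Tankeev,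
Ribet, Serre, Chi), for `End A = ℤ` and odd dimension (Serre) and many other dimensions (Pink), if
the reduction at one place is of K3 type (Zarhin), and for products of abelian varieties for which
it is known (Vasiu, Commelin). In the library there are criteria by one Frobenius element with the
types `OddType`, `SumType`, with one slope which dominates among **all** embeddings of a single
field, and with almost all slope types of typical CM fields. New here: the dominated types (inside
of a class, usual or `ℓ`-adic absolute value, with weights), the unitary type, the primitive and
irreducible types for the classes defined by flips, and their combination for arbitrary families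
of fields which need not be independent. The theorem on products cannot be applied here, since
nothing is assumed about the factors of `A`.

**Examples** (proved in `Pool.Agent.H395.Local.criteria`). For a single CM field `E` and a Weil
number `π` of weight `m` all powers of which generate `E` the hypothesis `LocalTypes` is satisfied
if `4 |s(ψ) - m / 2| > ∑ |s(φ) - m / 2|` for one embedding `ψ`, the sum over all embeddings, `s`
the slope; and also if `E` contains an imaginary quadratic field `F` such that `[E : F] = r ^ k`
is a power of a prime number `r`, and `π` is ordinary and the number `s` of the embeddings which
agree with one embedding on `F` and at which `π` is a unit is not divisible by `r`, `2 s ≠ r ^ k`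
(multiplication by `F` of signature `(s, r ^ k - s)`).

**The proof.** A multiplicative relation between the conjugates of the `π i` gives a function `c`
on `X` with integral values, `c(x̄) = - c(x)` and `∑ c(x) q(τ x) = 0` for all `τ`. The correlation
of two flipped elements vanishes, so that the sum can be restricted to any class (library). One
has to show that `c = 0` on the class. Dominated type: one moves an element of the class (and of
its translates) where `|c| / t` has its largest value, for the usual or the `ℓ`-adic absolute
value, to the element `z`, and compares the absolute values of the terms. Unitary type: since `∑ q
≠ 0` over `R`, the sum of the values of `c` over `R` is zero, and so `∑ c(x) n(τ x) = 0` for all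
`τ` which preserve `R`. If the lattice of these `c` is not zero it contains an element which is
not divisible by `r` and is invariant modulo `r` under a Sylow `r`-subgroup of the group on `R`;
this subgroup is transitive on `R`, hence `c` is constant modulo `r` and `r ∣ ∑ n`. Primitive
type: if `b` is prime, an element of a Sylow subgroup has two orbits of length `b` on the class,
exchanged by the conjugation, and the cyclotomic polynomial is irreducible. So either all
translates of `q` agree at two different elements of the class, and then a power of `π i` does not
generate `K i`; or the sums of `q` over the translates of the orbit are zero, the orbit is a block
that belongs to a CM subfield `F` with `[K i : F] = b`, and the norm of `π i` to `F` is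
supersingular (Kronecker). The doubly transitive case is similar. Irreducible type: clear, as `q`
does not vanish on all translates.
-/

set_option autoImplicit false

namespace Pool.Agent.Results.MP_33b3f9_ag.LocalClassTypes

open NumberField Module Pool.Agent.H204R3.GP Pool.Agent.TH170 Pool.Agent.H395.Local

/-- The Mumford-Tate conjecture, for the prime number `ℓ`, for all abelian varieties over finitely
generated fields which have a Frobenius element at a place with `p ^ a` elements in the residue field
whose characteristic polynomial is the product of the minimal polynomials of the Weil numbers
`π i`. -/
def MumfordTateFor (p a : ℕ) {I : Type} [Fintype I] {K : I → Type} [∀ i, Field (K i)]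
    [∀ i, NumberField (K i)] (π : ∀ i, K i) (ℓ : ℕ) [Fact ℓ.Prime] : Prop :=
  ∀ (W T V Γ : Type) [AddCommGroup W] [Module ℚ W] [AddCommGroup T] [Module ℂ T]
    [AddCommGroup V] [Module ℚ_[ℓ] V] [FiniteDimensional ℚ_[ℓ] V] [Group Γ]
    (per : W →+ T) (ω₀ : W →ₗ[ℚ] W →ₗ[ℚ] ℚ) (comp : W →+ V) (ρ : Representation ℚ_[ℓ] Γ V)
    (χ : Γ →* ℚ_[ℓ]) (ω : V →ₗ[ℚ_[ℓ]] V →ₗ[ℚ_[ℓ]] ℚ_[ℓ]),
    FT.IsRealization per ω₀ comp ρ χ ω → FT.HasFrobenius ρ χ p a π →
      MumfordTateStrong per comp ρ χ

/-- **The Mumford-Tate conjecture for all abelian varieties with one Frobenius element whose Weil
numbers have classes of local types.** -/
theorem result (p : ℕ) [Fact p.Prime] (a : ℕ) (ha : 0 < a) (I : Type) [Fintype I] (K : I → Type)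
    [∀ i, Field (K i)] [∀ i, NumberField (K i)] [∀ i, IsCMField (K i)] (π : ∀ i, K i)
    (hint : ∀ i, IsIntegral ℤ (π i))
    (hw : ∀ i, π i * IsCMField.complexConj (K i) (π i) = (p : K i) ^ a)
    (hloc : LocalTypes p (fun _ => a) π) (ℓ : ℕ) [Fact ℓ.Prime] : MumfordTateFor p a π ℓ :=
  fun _ _ _ _ _ _ _ _ _ _ _ _ _ _ _ _ _ _ hR hF => mumfordTate ha hint hw hloc hR hF

end Pool.Agent.Results.MP_33b3f9_ag.LocalClassTypes
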