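import Mathlib
import Pool.Agent.H943.LA.Tns
import Pool.Graph.R_pool_sql_team_seeded_1acbe0a2.Y71.OD2.Duo

/-!
# The Mumford-Tate conjecture for abelian varieties with division algebras at a prime number

Let `X` be an abelian variety over a finitely generated field of characteristic zero, embedded in
the field of complex numbers, and let `ℓ` be a prime number. Let `U` be a simple abelian subvariety
of `X` over the complex numbers, `D` its endomorphism algebra, `F` the centre of `D`, and let `C` be
the commutant of `D` in the algebra of all endomorphisms of `H_1(U, ℚ)`. Then `ℚ_ℓ ⊗ F` is a product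
of fields `F_λ`, and `ℚ_ℓ ⊗ C` is the product of central simple algebras `C_λ` over `F_λ`. The
Hodge group of `U` and the image of the Galois group are contained in the unitary groups of these
algebras. We say that `U` is of division type at `ℓ` (`IsDivisionSub`) if all `C_λ` are division
algebras the degrees of which are powers of prime numbers (greater than one). There is no condition
on the action of `F` on the tangent space (the signature).

Example. Let `U` have multiplication by a division algebra `D` of degree `q` over a CM field `F`,
where `q` is a power of a prime number and `dim U = q ^ 2 [F : ℚ] / 2` (so `H_1(U, ℚ)` is a free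
`D`-module of rank one; these are the abelian varieties of the simple Shimura varieties of Kottwitz),
and let `ℓ` be a prime number such that `D_λ` is a division algebra for all places `λ` of `F` above
`ℓ`. Then `U` is of division type at `ℓ` if `D` is its endomorphism algebra, for all signatures
`(r, s)`, `r + s = q`, for instance for the signatures `(2, 2)`, `(4, 4)`, `(3, 6)`, `(6, 2)`.
Subalgebras of division algebras are division algebras, and so, if the endomorphism algebra is
greater, the simple factors of `U` are of division type at `ℓ`, or have complex multiplication.

Suppose that each simple abelian subvariety `U` of `X` is of division type at `ℓ`, or has one of the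
types of the library result `NonCoprimeSignatures` of this problem (`GoodTypeD`), and that the
simple abelian subvarieties are not related by twists (`IsSeparated`), which always holds if all
multiplicities are nonzero. The dimensions, the number and the multiplicities of the simple factors
are arbitrary.

**Theorem.** All Tate tensors are linear combinations of Hodge tensors: each multilinear form in
`2 n` variables on the Tate module `ℚ_ℓ ⊗ H`, `H = H_1(X, ℚ)`, on which a subgroup of finite index
of the Galois group acts through the `n`-th power of the cyclotomic character, is a combination of
Hodge classes in `H^1(X, ℚ)^{⊗ 2 n}(n)`. Since the groups in question are reductive (Faltings) and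
contain the homotheties (Bogomolov), they are given by these tensors, and this is the Mumford-Tate
conjecture for `X` and `ℓ`. (By the theorem of Larsen and Pink it is then true for all prime numbers.)

The hypotheses on the Tate module (`IsTateModule`) are known theorems: the Weil pairing, the theorem
of Faltings, the Hodge-Tate decomposition and the theorem of Serre (Pink) that the Hodge-Tate
elements generate the Lie algebra of the image of the Galois group. The exponent of a division
algebra over a finite extension of `ℚ_ℓ` is equal to its degree by local class field theory; this
property is contained in the definition of the division type, in an elementary form.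

Proof. Let `L` be the Lie algebra of the Galois representation (generated by the Hodge-Tate
involutions of `GL(ℂ ⊗ H)`). It is stable under the automorphisms of `ℂ` over `ℚ_ℓ`, so it is given
by a Lie algebra over `ℚ_ℓ`, the component of which in the division algebra `C_λ` generates `C_λ`
(Faltings). By a theorem on Lie subalgebras of division algebras of prime power degree
(`Pool.Agent.H943.DP.thmA`) the component contains all commutators of `C_λ` or it is a sum of such
Lie algebras for a tensor decomposition, which is impossible for prime power degrees and exponents;
so `L` acts on each irreducible submodule through `𝔰𝔩`, and contains elements of rank one. The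
simple factors are put together as in the library (`Pool.Agent.Y91.L`, `Pool.Agent.Y224.TS`).
-/

namespace Pool.Agent.Results.MP_33b3f9_ag.LocalDivisionAlgebras

open Pool.Agent.Y90.St Pool.Agent.Y224.TS.St TensorProduct

/-- **The Mumford-Tate conjecture** for an abelian variety `X` over a finitely generated field of
characteristic zero, given by the period map `per : H → T` (`H = H_1(X, ℚ)`, `T` the tangent space),
a polarization `E` and the representation `ρ` of the Galois group `Γ` on the Tate module `ℚ_ℓ ⊗ H`,
with the known properties of the Tate module (`IsTateModule`; `χ` is the cyclotomic character, and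
`ℂ` is identified with an algebraic closure of `ℚ_ℓ`). If the simple abelian subvarieties of `X`
over `ℂ` have one of the types of `GoodTypeD` (for instance the division type at `ℓ`) and are not
related by twists (`IsSeparated`), then each Tate tensor `φ` (a multilinear form in `2 n` variables
on the Tate module on which a subgroup of finite index acts through `χ ^ n`) is a `ℚ_ℓ`-linear
combination of Hodge tensors (`HodgeMul`). -/
theorem result {H T : Type} [AddCommGroup H] [Module ℚ H] [AddCommGroup T] [Module ℂ T]
    (per : H →+ T) (hX : IsAV per) (E : H → H → ℚ) (hE : IsPolarization per E)
    (ℓ : ℕ) [Fact ℓ.Prime] [Algebra ℚ_[ℓ] ℂ] [Algebra.IsAlgebraic ℚ_[ℓ] ℂ]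
    (hs : Pool.Agent.H943.LA.GoodTypeD ℚ_[ℓ] per) (ht : Pool.Agent.Y4.Q.IsSeparated per)
    {Γ : Type} [Group Γ] (ρ : Representation ℚ_[ℓ] Γ (ℚ_[ℓ] ⊗[ℚ] H)) (χ : Γ →* ℚ_[ℓ])
    (hρ : IsTateModule per E ρ χ) {κ : Type} [Finite κ] {n : ℕ} (hκ : Nat.card κ = 2 * n)
    (φ : MultilinearMap ℚ_[ℓ] (fun _ : κ => ℚ_[ℓ] ⊗[ℚ] H) ℚ_[ℓ])
    (hφ : ∃ Δ : Subgroup Γ, Δ.FiniteIndex ∧ ∀ g ∈ Δ, ∀ v : κ → ℚ_[ℓ] ⊗[ℚ] H,
      φ (fun k => ρ g (v k)) = χ g ^ n * φ v) :
    ∃ (N : ℕ) (c : Fin N → ℚ_[ℓ]) (f : Fin N → MultilinearMap ℚ (fun _ : κ => H) ℚ),
      (∀ j, Pool.Agent.H204R3.CM.HodgeMul per (f j)) ∧
        ∀ v : κ → H, φ (fun k => (1 : ℚ_[ℓ]) ⊗ₜ v k) = ∑ j, c j * ((f j v : ℚ) : ℚ_[ℓ]) :=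
  Pool.Agent.H943.LA.tate_hodge Pool.Agent.Y71.OD2.duo hX hs ht hE hρ hκ φ hφ

end Pool.Agent.Results.MP_33b3f9_ag.LocalDivisionAlgebras
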