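import Pool.Agent.H850.MT.Fix
import Pool.Agent.H850.LA.Dt
import Pool.Agent.H850.LA.Cn
import Pool.Agent.H850.LA.Ros

/-!
# MP_33b3f9_ag: two Frobenius elements at one place decide the Mumford-Tate conjecture

An abelian variety over a number field `F ⊂ ℂ` is given by its Hodge theoretic data (the lattice
`H_1(A(ℂ), ℤ)` in the tangent space, a Riemann form), the Galois representations on the Tate modules
`T_ℓ(A) = H_1(A(ℂ), ℤ) ⊗ ℤ_ℓ` for all primes `ℓ`, and the polynomials of the Frobenius elements,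
with the properties which are theorems for abelian varieties (Weil, Faltings, Deligne and the
Mumford-Tate conjecture for centres). The only hypothesis on `A` is that the `ℓ₀`-adic monodromy
group is connected over `F` for ONE prime `ℓ₀`. We prove that for all places `v` outside a set of
density zero, a Frobenius element at `v` and almost every conjugate of it generate, together with all
their powers, large subgroups of the `ℓ`-adic monodromy groups for all primes `ℓ` prime to `v` at the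
same time: the subgroups are Zariski dense, the Lie algebra of the closure contains the derived
algebra of the `ℓ`-adic Lie algebra, and the closure is OPEN in the image of the Galois group if `A`
has no simple factor of type IV. These two elements decide the Mumford-Tate conjecture for `A` at
all `ℓ`.

On the way we prove that the `ℓ`-adic monodromy groups of `A` are connected for all `ℓ` if one of
them is (Serre), and that the `ℓ`-adic Lie algebra is the sum of its derived algebra and scalars if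
`A` has no simple factor of type IV.
-/

set_option autoImplicit false
set_option linter.unusedSectionVars false

namespace Pool.Agent.Results.MP_33b3f9_ag.TwoFrobeniusElements

open NumberField Filter Topology IsDedekindDomain MeasureTheory TensorProduct Module
open Pool.Agent.W401.Cheb (GK IsFrob IsInert dens)
open Pool.Agent.H204R3.GP (IsHodgeTensor IsHodgeEnd IsTateTensor)
open Pool.Agent.W516.MTD (IsRationalStructure IsRiemannForm IsHodgeCombination endos Faltings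
  Semisimple Deligne Centres)
open Pool.Agent.Q69.MTQ (Form MumfordTate ConsistsOfHodgeClasses TateConjecture HodgeConjecture)

/-- A matrix over `ℤ_ℓ` viewed over `ℚ_ℓ`. -/
noncomputable def rat {ℓ : ℕ} [Fact ℓ.Prime] {n : ℕ} (g : GL (Fin n) ℤ_[ℓ]) :
    Matrix (Fin n) (Fin n) ℚ_[ℓ] :=
  (g : Matrix (Fin n) (Fin n) ℤ_[ℓ]).map (algebraMap ℤ_[ℓ] ℚ_[ℓ])

/-- The basis of `ℚ_ℓ ⊗ ℚ ^ n` given by the standard basis of `ℚ ^ n`. -/
noncomputable def stdBasis (ℓ : ℕ) [Fact ℓ.Prime] (n : ℕ) :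
    Basis (Fin n) ℚ_[ℓ] (ℚ_[ℓ] ⊗[ℚ] (Fin n → ℚ)) :=
  Algebra.TensorProduct.basis ℚ_[ℓ] (Pi.basisFun ℚ (Fin n))

/-- Matrices over the ring `R` acting on a vector space with a basis. -/
noncomputable def act {R k V : Type} [CommRing R] [Field k] [AddCommGroup V] [Module k V] {n : ℕ}
    (b : Basis (Fin n) k V) (f : R →+* k) : Matrix (Fin n) (Fin n) R →* Module.End k V :=
  (Matrix.toLinAlgEquiv b).toMulEquiv.toMonoidHom.comp f.mapMatrix.toMonoidHom

/-- The representation on the rational Tate module `V_ℓ = ℚ_ℓ ⊗ H_1(A(ℂ), ℚ)`, given by matrices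
over `ℤ_ℓ`. -/
noncomputable def rep {Γ : Type} [Group Γ] {ℓ : ℕ} [Fact ℓ.Prime] {n : ℕ}
    (ρ : Γ →* GL (Fin n) ℤ_[ℓ]) : Representation ℚ_[ℓ] Γ (ℚ_[ℓ] ⊗[ℚ] (Fin n → ℚ)) :=
  (act (stdBasis ℓ n) (algebraMap ℤ_[ℓ] ℚ_[ℓ])).comp ((Units.coeHom _).comp ρ)

/-- A character with values in `ℤ_ℓ` viewed with values in `ℚ_ℓ`. -/
noncomputable def toRat {Γ : Type} [Group Γ] {ℓ : ℕ} [Fact ℓ.Prime] (χ : Γ →* ℤ_[ℓ]) :
    Γ →* ℚ_[ℓ] := (algebraMap ℤ_[ℓ] ℚ_[ℓ] : ℤ_[ℓ] →* ℚ_[ℓ]).comp χ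

/-- The Gram matrix of a bilinear form on `ℚ ^ n`, over `ℚ_ℓ`. -/
noncomputable def gram (ℓ : ℕ) [Fact ℓ.Prime] {n : ℕ}
    (ω : (Fin n → ℚ) →ₗ[ℚ] (Fin n → ℚ) →ₗ[ℚ] ℚ) : Matrix (Fin n) (Fin n) ℚ_[ℓ] :=
  (Matrix.of fun i j => ω (Pi.single i 1) (Pi.single j 1)).map (algebraMap ℚ ℚ_[ℓ])

section Tests

variable {k : Type} [Field k] [CharZero k] {W T : Type} [AddCommGroup W] [Module ℚ W]
  [AddCommGroup T] [Module ℂ T] {Γ : Type} [Group Γ] (per : W →+ T)
  (ρ : Representation k Γ (k ⊗[ℚ] W)) (χ : Γ →* k) (x y : Γ)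

/-- The class `φ` in `(H^1 ^ {⊗ 2 m}) (m)`, a multilinear form in `2 m` variables on
`V = k ⊗ W`, is fixed by `x`. -/
def Fixes (m : ℕ) (φ : Form k W m) : Prop := ∀ v, φ (fun l => ρ x (v l)) = χ x ^ m * φ v

/-- For all `m`, the Tate classes in `(H^1 ^ {⊗ 2 m}) (m)` are the classes fixed by `x` and `y`. -/
def DetectTate : Prop :=
  ∀ (m : ℕ) (φ : Form k W m), IsTateTensor ρ χ m φ ↔ Fixes ρ χ x m φ ∧ Fixes ρ χ y m φ

/-- The endomorphisms of `V` which commute with `x` and `y` are combinations of endomorphisms of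
`A`. -/
def DetectEnd : Prop :=
  ∀ Q : Module.End k (k ⊗[ℚ] W), (∀ v, Q (ρ x v) = ρ x (Q v)) → (∀ v, Q (ρ y v) = ρ y (Q v)) →
    Q ∈ endos k per

/-- The Mumford-Tate conjecture for `A` and its powers (Tate classes are combinations of Hodge
classes) holds if and only if the classes in `(H^1 ^ {⊗ 4}) (2)` fixed by `x` and `y` are
combinations of Hodge classes. -/
def DecideMT : Prop :=
  MumfordTate per ρ χ ↔
    ∀ φ : Form k W 2, Fixes ρ χ x 2 φ → Fixes ρ χ y 2 φ → IsHodgeCombination per φ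

/-- For all possible spaces of algebraic classes, the Tate conjecture for `A` and its powers holds
if and only if the Hodge conjecture does and the classes in `(H^1 ^ {⊗ 4}) (2)` fixed by `x` and
`y` are algebraic. -/
def DecideTate : Prop :=
  ∀ Alg : ∀ m : ℕ, Submodule k (Form k W m), ConsistsOfHodgeClasses per Alg →
    (TateConjecture ρ χ Alg ↔ HodgeConjecture per Alg ∧
      ∀ φ : Form k W 2, Fixes ρ χ x 2 φ → Fixes ρ χ y 2 φ → φ ∈ Alg 2)

/-- All these statements. -/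
def Tests : Prop :=
  DetectTate ρ χ x y ∧ DetectEnd per ρ x y ∧ DecideMT per ρ χ x y ∧ DecideTate per ρ χ x y

end Tests

/-- The Hodge theoretic data of a complex abelian variety with `H_1(A(ℂ), ℚ) = ℚ ^ n`. -/
structure HodgeData (n : ℕ) where
  /-- the tangent space of `A(ℂ)` at the origin -/
  Tan : Type
  [group : AddCommGroup Tan]
  [space : Module ℂ Tan]
  /-- the map from `H_1(A(ℂ), ℚ)` to the tangent space -/
  per : (Fin n → ℚ) →+ Tan
  rational : IsRationalStructure per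
  /-- a Riemann form -/
  form : (Fin n → ℚ) →ₗ[ℚ] (Fin n → ℚ) →ₗ[ℚ] ℚ
  riemann : IsRiemannForm per form

attribute [instance] HodgeData.group HodgeData.space

/-- The Galois representations on the Tate modules `T_ℓ(A) = ℤ_ℓ ^ n` of an abelian variety over the
number field `F`. -/
structure GaloisData (F : Type) [Field F] [NumberField F] (n : ℕ) where
  /-- the action of the Galois group on the Tate module -/
  ρ : ∀ (ℓ : ℕ) [Fact ℓ.Prime], GK F →* GL (Fin n) ℤ_[ℓ]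
  cont : ∀ (ℓ : ℕ) [Fact ℓ.Prime], Continuous fun σ => (ρ ℓ σ : Matrix (Fin n) (Fin n) ℤ_[ℓ])
  /-- the cyclotomic character -/
  χ : ∀ (ℓ : ℕ) [Fact ℓ.Prime], GK F →* ℤ_[ℓ]
  cont_χ : ∀ (ℓ : ℕ) [Fact ℓ.Prime], Continuous (χ ℓ)
  /-- the theorem of Faltings on semisimplicity -/
  semisimple : ∀ (ℓ : ℕ) [Fact ℓ.Prime], Semisimple (rep (ρ ℓ))

/-- The reduction of the abelian variety at the places outside the finite set `bad`. -/
structure Reduction {F : Type} [Field F] [NumberField F] {n : ℕ} (G : GaloisData F n) where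
  /-- the places of bad reduction -/
  bad : Set (HeightOneSpectrum (𝓞 F))
  bad_finite : bad.Finite
  /-- the characteristic polynomials of the Frobenius elements -/
  frob : HeightOneSpectrum (𝓞 F) → Polynomial ℤ
  unramified : ∀ (ℓ : ℕ) [Fact ℓ.Prime], ∀ v ∉ bad, (ℓ : 𝓞 F) ∉ v.asIdeal →
    ∀ σ, IsInert v σ → G.ρ ℓ σ = 1
  charpoly : ∀ (ℓ : ℕ) [Fact ℓ.Prime], ∀ v ∉ bad, (ℓ : 𝓞 F) ∉ v.asIdeal →
    ∀ σ, IsFrob v σ → (rat (G.ρ ℓ σ)).charpoly = (frob v).map (algebraMap ℤ ℚ_[ℓ])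
  /-- the Riemann hypothesis (Weil) -/
  weil : ∀ v ∉ bad, ∀ z ∈ ((frob v).map (algebraMap ℤ ℂ)).roots,
    ‖z‖ ^ 2 = (Ideal.absNorm v.asIdeal : ℝ)

/-- An abelian variety over the number field `F`, with the relations between Hodge theory and Galois
representations. -/
structure AbelianVariety (F : Type) [Field F] [NumberField F] where
  /-- twice the dimension; `H_1(A(ℂ), ℤ) = ℤ ^ rank` -/
  rank : ℕ
  H : HodgeData rank
  G : GaloisData F rank
  R : Reduction G
  /-- the Weil pairing is given by the Riemann form -/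
  pairing : ∀ (ℓ : ℕ) [Fact ℓ.Prime] (σ : GK F),
    (rat (G.ρ ℓ σ)).transpose * gram ℓ H.form * rat (G.ρ ℓ σ) =
      toRat (G.χ ℓ) σ • gram ℓ H.form
  /-- the theorem of Faltings on endomorphisms -/
  faltings : ∀ (ℓ : ℕ) [Fact ℓ.Prime], Faltings H.per (rep (G.ρ ℓ))
  /-- the theorem of Deligne: Hodge classes are Tate classes -/
  deligne : ∀ (ℓ : ℕ) [Fact ℓ.Prime], Deligne H.per (rep (G.ρ ℓ)) (toRat (G.χ ℓ))
  /-- the Mumford-Tate conjecture for centres (Vasiu, Ullmo-Yafaev) -/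
  centres : ∀ (ℓ : ℕ) [Fact ℓ.Prime], Centres H.per (rep (G.ρ ℓ)) (toRat (G.χ ℓ))

variable {F : Type} [Field F] [NumberField F]

namespace AbelianVariety

variable (A : AbelianVariety F) (ℓ : ℕ) [Fact ℓ.Prime]

/-- The value of a polynomial at the entries of the matrix of `σ` on the Tate module. -/
noncomputable def value (P : MvPolynomial (Fin A.rank × Fin A.rank) ℚ_[ℓ]) (σ : GK F) : ℚ_[ℓ] :=
  MvPolynomial.eval (fun q => rat (A.G.ρ ℓ σ) q.1 q.2) P

/-- The `ℓ`-adic monodromy group is connected over `F`: a polynomial in the matrix entries which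
vanishes on the image of the Galois group of some finite extension of `F` vanishes on the image of
the Galois group of `F`. -/
def Connected : Prop :=
  ∀ (P : MvPolynomial (Fin A.rank × Fin A.rank) ℚ_[ℓ])
    (L : IntermediateField F (AlgebraicClosure F)), FiniteDimensional F L →
      (∀ σ ∈ L.fixingSubgroup, A.value ℓ P σ = 0) → ∀ σ, A.value ℓ P σ = 0

/-- The subgroup generated by `x` and `y` is Zariski dense in the image of the Galois group on the
`ℓ`-adic Tate module. -/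
def Dense (x y : GK F) : Prop :=
  ∀ P : MvPolynomial (Fin A.rank × Fin A.rank) ℚ_[ℓ],
    (∀ g ∈ Subgroup.closure {x, y}, A.value ℓ P g = 0) → ∀ σ, A.value ℓ P σ = 0

/-- The matrix `X` belongs to the Lie algebra of the closure of the image of the subgroup `H` of the
Galois group in the automorphisms of the `ℓ`-adic Tate module: it is a limit of `(σ_m - 1) / ℓ ^ m`
with `σ_m` in `H`. -/
def InLie (H : Subgroup (GK F)) (X : Matrix (Fin A.rank) (Fin A.rank) ℚ_[ℓ]) : Prop :=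
  ∃ σ : ℕ → GK F, (∀ m, σ m ∈ H) ∧
    Tendsto (fun m : ℕ => ((ℓ : ℚ_[ℓ]) ^ m)⁻¹ • (rat (A.G.ρ ℓ (σ m)) - 1)) atTop (𝓝 X)

/-- The Lie algebra of the closure of the group generated by `x` and `y` contains all brackets of
the Lie algebra of the image of the Galois group of `F`. -/
def ContainsBrackets (x y : GK F) : Prop :=
  ∀ X Y, A.InLie ℓ ⊤ X → A.InLie ℓ ⊤ Y → A.InLie ℓ (Subgroup.closure {x, y}) (X * Y - Y * X)

/-- The closure of the group generated by the images of `x` and `y` contains the image of the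
Galois group of a finite extension of `F`: it is open in the image of the Galois group of `F`. -/
def OpenImage (x y : GK F) : Prop :=
  ∃ L : IntermediateField F (AlgebraicClosure F), FiniteDimensional F L ∧
    ∀ σ ∈ L.fixingSubgroup, rat (A.G.ρ ℓ σ) ∈
      closure ((fun τ => rat (A.G.ρ ℓ τ)) '' (Subgroup.closure {x, y} : Set (GK F)))

/-- `A` has no simple factor of type IV in Albert's classification: the Rosati involution of the
Riemann form is trivial on the centre of the algebra `End(A) ⊗ ℚ` of endomorphisms of `A(ℂ)`. -/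
def NoTypeIV : Prop :=
  ∀ P : (Fin A.rank → ℚ) →ₗ[ℚ] (Fin A.rank → ℚ), IsHodgeEnd A.H.per P →
    (∀ Q : (Fin A.rank → ℚ) →ₗ[ℚ] (Fin A.rank → ℚ), IsHodgeEnd A.H.per Q → Q ∘ₗ P = P ∘ₗ Q) →
      ∀ u v, A.H.form (P u) v = A.H.form u (P v)

/-- The pair `x`, `y` decides about `A` at `ℓ`: the group generated by `x`, `y` is Zariski dense, the
Lie algebra of its closure contains the derived algebra of the `ℓ`-adic Lie algebra, its closure is
open if `A` has no factor of type IV, and the four tests hold. -/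
def Decides (x y : GK F) : Prop :=
  A.Dense ℓ x y ∧ A.ContainsBrackets ℓ x y ∧ (A.NoTypeIV → A.OpenImage ℓ x y) ∧
    Tests A.H.per (rep (A.G.ρ ℓ)) (toRat (A.G.χ ℓ)) x y

/-- The powers of `α`, `β` decide at all primes prime to `v`. -/
def DecidesAll (v : HeightOneSpectrum (𝓞 F)) (α β : GK F) : Prop :=
  ∀ (ℓ : ℕ) [Fact ℓ.Prime], (ℓ : 𝓞 F) ∉ v.asIdeal → ∀ k : ℕ, k ≠ 0 →
    A.Decides ℓ (α ^ k) (β ^ k)

end AbelianVariety

section Proofs

open Pool.Agent.H850.TF Pool.Agent.H850.RG Pool.Agent.H850.MT2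

variable (A : AbelianVariety F) (ℓ : ℕ) [Fact ℓ.Prime]

theorem exists_field {U : Subgroup (GK F)} (hU : IsOpen (U : Set (GK F))) :
    ∃ L : IntermediateField F (AlgebraicClosure F), FiniteDimensional F L ∧
      L.fixingSubgroup ≤ U := by
  have h1 : (U : Set (GK F)) ∈ 𝓝 (1 : GK F) := hU.mem_nhds U.one_mem
  rw [krullTopology_mem_nhds_one_iff] at h1
  exact h1

theorem connected_iff : A.Connected ℓ ↔ ∀ σ, σ ∈ conn (A.G.ρ ℓ) := by
  constructor
  · intro h σ
    have h1 : ConnOn (A.G.ρ ℓ) ⊤ := by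
      refine connOn_of_poly (A.G.ρ ℓ) _ fun P V hV hPV u _ => ?_
      obtain ⟨L, hL, hLV⟩ := exists_field hV
      exact h P L hL (fun σ hσ => hPV σ (hLV hσ)) u
    exact h1.le trivial
  · intro h P L hL hP σ
    have h1 : (fun σ => A.value ℓ P σ) ∈ Pol (A.G.ρ ℓ) := val_mem (A.G.ρ ℓ) P
    exact connOn_conn (A.G.ρ ℓ) _ h1 L.fixingSubgroup L.fixingSubgroup_isOpen hP σ (h σ)

theorem toRat_ne (σ : GK F) : toRat (A.G.χ ℓ) σ ≠ 0 := by
  intro h
  have h1 : toRat (A.G.χ ℓ) σ * toRat (A.G.χ ℓ) σ⁻¹ = 1 := by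
    rw [← map_mul, mul_inv_cancel, map_one]
  rw [h, zero_mul] at h1
  exact zero_ne_one h1

/-- the Gram matrix is invertible -/
theorem gram_inv : ∃ J' : Matrix (Fin A.rank) (Fin A.rank) ℚ_[ℓ], J' * gram ℓ A.H.form = 1 := by
  have h1 : (gram ℓ A.H.form).det ≠ 0 := by
    have h2 : (gram ℓ A.H.form).det = algebraMap ℚ ℚ_[ℓ]
        (Matrix.of fun i j : Fin A.rank => A.H.form (Pi.single i 1) (Pi.single j 1)).det := by
      rw [RingHom.map_det]
      rfl
    rw [h2]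
    intro h3
    exact riemann_nondeg A.H.rational A.H.riemann ((algebraMap ℚ ℚ_[ℓ]).injective (by rw [h3, map_zero]))
  exact ⟨(gram ℓ A.H.form)⁻¹, Matrix.nonsing_inv_mul _ (isUnit_iff_ne_zero.2 h1)⟩

theorem fixes_iff (x : GK F) (m : ℕ) (φ : Form ℚ_[ℓ] (Fin A.rank → ℚ) m) :
    Fixes (rep (A.G.ρ ℓ)) (toRat (A.G.χ ℓ)) x m φ ↔ FixedBy (stdBasis ℓ A.rank) (A.G.ρ ℓ) (toRat (A.G.χ ℓ)) φ x := Iff.rfl

theorem semisimple_CR : CR (Set.range (Pool.Agent.H850.TF.rat (A.G.ρ ℓ))) :=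
  CR_of_semisimple_rep (stdBasis ℓ A.rank) (A.G.semisimple ℓ)

/-- the form over `ℚ_ℓ` -/
theorem pairing_rational (u v : Fin A.rank → ℚ) :
    Matrix.toLinearMap₂ (stdBasis ℓ A.rank) (stdBasis ℓ A.rank) (gram ℓ A.H.form)
      ((1 : ℚ_[ℓ]) ⊗ₜ[ℚ] u) ((1 : ℚ_[ℓ]) ⊗ₜ[ℚ] v) = ((A.H.form u v : ℚ) : ℚ_[ℓ]) := by
  have hrepr : ∀ (x : Fin A.rank → ℚ) (i : Fin A.rank),
      (stdBasis ℓ A.rank).repr ((1 : ℚ_[ℓ]) ⊗ₜ[ℚ] x) i = ((x i : ℚ) : ℚ_[ℓ]) := by
    intro x i
    unfold stdBasis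
    rw [Algebra.TensorProduct.basis_repr_tmul]
    simp
  have hform : A.H.form u v = ∑ i, ∑ j, u i * (v j * A.H.form (Pi.single i 1) (Pi.single j 1)) := by
    have h1 : ∀ x : Fin A.rank → ℚ, x = ∑ j, x j • (Pi.single j (1 : ℚ) : Fin A.rank → ℚ) := by
      intro x
      ext k
      simp [Finset.sum_apply, Pi.single_apply]
    conv_lhs => rw [h1 u, h1 v]
    rw [map_sum A.H.form, LinearMap.sum_apply]
    refine Finset.sum_congr rfl fun i _ => ?_
    rw [map_smul, LinearMap.smul_apply, map_sum, Finset.smul_sum]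
    refine Finset.sum_congr rfl fun j _ => ?_
    rw [map_smul, smul_eq_mul, smul_eq_mul]
  rw [Matrix.toLinearMap₂_apply, hform]
  push_cast
  refine Finset.sum_congr rfl fun i _ => Finset.sum_congr rfl fun j _ => ?_
  rw [hrepr, hrepr, smul_eq_mul, smul_eq_mul]
  rfl

/-- the dual representations are semisimple -/
theorem semisimple_dual : CR (Set.range (Pool.Agent.H850.TF.rat (dual (A.G.ρ ℓ)))) := by
  obtain ⟨J', hJ⟩ := gram_inv A ℓ
  exact CR_dual (toRat_ne A ℓ) hJ (A.pairing ℓ) (semisimple_CR A ℓ)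

theorem conn_dual (h : ∀ σ, σ ∈ conn (A.G.ρ ℓ)) (σ : GK F) : σ ∈ conn (dual (A.G.ρ ℓ)) := by
  have hct : ConnOn (A.G.ρ ℓ) ⊤ := fun D hD V hV hDV u _ =>
    connOn_conn (A.G.ρ ℓ) D hD V hV hDV u (h u)
  exact (connOn_dual hct).le trivial

theorem conn_of_dual (h : ∀ σ, σ ∈ conn (dual (A.G.ρ ℓ))) (σ : GK F) : σ ∈ conn (A.G.ρ ℓ) := by
  have h1 : Pol (A.G.ρ ℓ) ≤ Pol (dual (A.G.ρ ℓ)) := by
    apply Algebra.adjoin_le
    rintro D (⟨i, j, rfl⟩ | ⟨i, j, rfl⟩)
    · refine Algebra.subset_adjoin (Or.inr ⟨j, i, ?_⟩)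
      funext τ
      rw [rat_dual, inv_inv, Matrix.transpose_apply]
    · refine Algebra.subset_adjoin (Or.inl ⟨j, i, ?_⟩)
      funext τ
      rw [rat_dual, Matrix.transpose_apply]
  exact fun D hD hV => h σ D (h1 hD) hV

/-- the rational Gram matrix -/
theorem gram_inv_rat : ∃ J' : Matrix (Fin A.rank) (Fin A.rank) ℚ, J' *
    (Matrix.of fun i j : Fin A.rank => A.H.form (Pi.single i 1) (Pi.single j 1)) = 1 :=
  ⟨(Matrix.of fun i j : Fin A.rank => A.H.form (Pi.single i 1) (Pi.single j 1))⁻¹,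
    Matrix.nonsing_inv_mul _ (isUnit_iff_ne_zero.2 (riemann_nondeg A.H.rational A.H.riemann))⟩

/-- the form in coordinates -/
theorem form_apply (u v : Fin A.rank → ℚ) : A.H.form u v =
    ∑ i, ∑ j, u i * (v j * A.H.form (Pi.single i 1) (Pi.single j 1)) := by
  have h1 : ∀ x : Fin A.rank → ℚ, x = ∑ j, x j • (Pi.single j (1 : ℚ) : Fin A.rank → ℚ) := by
    intro x
    ext k
    simp [Finset.sum_apply, Pi.single_apply]
  conv_lhs => rw [h1 u, h1 v]
  rw [map_sum A.H.form, LinearMap.sum_apply]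
  refine Finset.sum_congr rfl fun i _ => ?_
  rw [map_smul, LinearMap.smul_apply, map_sum, Finset.smul_sum]
  refine Finset.sum_congr rfl fun j _ => ?_
  rw [map_smul, smul_eq_mul, smul_eq_mul]

/-- central endomorphisms are symmetric -/
theorem rosati_matrix (hE : A.NoTypeIV) :
    ∀ P ∈ Pool.Agent.H850.LA.hodgeMat A.H.per,
      (∀ Q ∈ Pool.Agent.H850.LA.hodgeMat A.H.per, Commute Q P) →
        P.transpose * (Matrix.of fun i j : Fin A.rank =>
          A.H.form (Pi.single i 1) (Pi.single j 1)) =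
          (Matrix.of fun i j : Fin A.rank => A.H.form (Pi.single i 1) (Pi.single j 1)) * P := by
  intro P hP hc
  have h1 := hE (Matrix.toLin' P) hP (fun Q hQ => by
    have h2 := hc (LinearMap.toMatrix' Q) (by
      change IsHodgeEnd A.H.per (Matrix.toLin' (LinearMap.toMatrix' Q))
      rwa [Matrix.toLin'_toMatrix'])
    have h3 := congrArg Matrix.toLin' h2.eq
    rwa [Matrix.toLin'_mul, Matrix.toLin'_mul, Matrix.toLin'_toMatrix'] at h3)
  ext i j
  have h2 := h1 (Pi.single i 1) (Pi.single j 1)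
  have e1 : A.H.form (Matrix.toLin' P (Pi.single i 1)) (Pi.single j 1) =
      ∑ k, P k i * A.H.form (Pi.single k 1) (Pi.single j 1) := by
    rw [Matrix.toLin'_apply, Matrix.mulVec_single_one, form_apply]
    refine Finset.sum_congr rfl fun k _ => ?_
    rw [Finset.sum_eq_single j]
    · rw [Pi.single_eq_same, one_mul]
      rfl
    · intro b _ hb
      rw [Pi.single_eq_of_ne hb, zero_mul, mul_zero]
    · intro h
      exact absurd (Finset.mem_univ _) h
  have e2 : A.H.form (Pi.single i 1) (Matrix.toLin' P (Pi.single j 1)) =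
      ∑ k, A.H.form (Pi.single i 1) (Pi.single k 1) * P k j := by
    rw [Matrix.toLin'_apply, Matrix.mulVec_single_one, form_apply, Finset.sum_eq_single i]
    · refine Finset.sum_congr rfl fun k _ => ?_
      rw [Pi.single_eq_same, one_mul, mul_comm]
      rfl
    · intro b _ hb
      rw [Pi.single_eq_of_ne hb]
      simp
    · intro h
      exact absurd (Finset.mem_univ _) h
  rw [e1, e2] at h2
  rw [Matrix.mul_apply, Matrix.mul_apply]
  exact h2

/-- the centre of the `ℓ`-adic Lie algebra consists of scalars if `A` has no factor of type IV -/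
theorem scalar_of_noTypeIV (hE : A.NoTypeIV) (hconn : ∀ σ, σ ∈ conn (A.G.ρ ℓ))
    {X : Matrix (Fin A.rank) (Fin A.rank) ℚ_[ℓ]}
    (hXL : X ∈ Pool.Agent.H850.LA.tanH (A.G.ρ ℓ) ⊤)
    (hX : ∀ σ, Commute (Pool.Agent.H850.TF.rat (A.G.ρ ℓ) σ) X) : ∃ c : ℚ_[ℓ], X = c • 1 := by
  have h1 : Matrix.toLinAlgEquiv (stdBasis ℓ A.rank) X ∈ endos ℚ_[ℓ] A.H.per := by
    refine A.faltings ℓ _ ⟨⊤, inferInstance, fun s _ v => ?_⟩
    have h2 := congrArg (Matrix.toLinAlgEquiv (stdBasis ℓ A.rank)) (hX s).eq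
    rw [map_mul, map_mul] at h2
    exact (congrArg (fun R : Module.End ℚ_[ℓ] (ℚ_[ℓ] ⊗[ℚ] (Fin A.rank → ℚ)) => R v) h2).symm
  have h2 := Pool.Agent.H850.LA.toMatrix_endos A.H.per h1
  have h3 : LinearMap.toMatrix (Algebra.TensorProduct.basis ℚ_[ℓ] (Pi.basisFun ℚ (Fin A.rank)))
      (Algebra.TensorProduct.basis ℚ_[ℓ] (Pi.basisFun ℚ (Fin A.rank)))
      (Matrix.toLinAlgEquiv (stdBasis ℓ A.rank) X) = X := LinearMap.toMatrix_toLin _ _ X
  rw [h3] at h2
  obtain ⟨c, hc⟩ := Pool.Agent.H850.LA.similitude_tan (A.G.ρ ℓ) (A.pairing ℓ) hXL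
  obtain ⟨J', hJ'⟩ := gram_inv_rat A
  have hω := fun (s : GK F) (u v : ℚ_[ℓ] ⊗[ℚ] (Fin A.rank → ℚ)) =>
    pairing_invariant (stdBasis ℓ A.rank) (A.pairing ℓ s) u v
  refine Pool.Agent.H850.LA.scalar_of_rosati (Pool.Agent.H850.LA.hodgeMat A.H.per) hJ'
    (rosati_matrix A hE) h2 (fun Q hQ => ?_) (c := c) hc
  refine Pool.Agent.H850.LA.commute_tan (A.G.ρ ℓ) (fun σ => ?_) hXL
  have h4 : (Matrix.toLin' Q).baseChange ℚ_[ℓ] ∈ endos ℚ_[ℓ] A.H.per :=
    Submodule.subset_span ⟨Matrix.toLin' Q, hQ, rfl⟩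
  obtain ⟨Δ, hΔ, h5⟩ := Pool.Agent.W516.MTM.almost_of_endos A.H.per (rep (A.G.ρ ℓ))
    (toRat (A.G.χ ℓ)) A.H.form (Matrix.toLinearMap₂ (stdBasis ℓ A.rank) (stdBasis ℓ A.rank)
      (gram ℓ A.H.form)) (Pool.Agent.W516.MTM.riemann_hodge A.H.per A.H.form A.H.riemann)
    (Pool.Agent.W516.MTM.riemann_nondeg A.H.per A.H.form A.H.rational A.H.riemann)
    (pairing_rational A ℓ) hω (A.deligne ℓ) h4
  refine Pool.Agent.H850.LA.commute_of_finiteIndex (A.G.ρ ℓ) (A.G.cont ℓ) hconn hΔ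
    (fun s hs => ?_) σ
  have h6 : (Matrix.toLin' Q).baseChange ℚ_[ℓ] * rep (A.G.ρ ℓ) s =
      rep (A.G.ρ ℓ) s * (Matrix.toLin' Q).baseChange ℚ_[ℓ] :=
    LinearMap.ext fun v => h5 s hs v
  have h7 : LinearMap.toMatrix (stdBasis ℓ A.rank) (stdBasis ℓ A.rank)
      ((Matrix.toLin' Q).baseChange ℚ_[ℓ]) = Pool.Agent.H850.TF.bc Q := by
    unfold stdBasis
    rw [LinearMap.toMatrix_baseChange, LinearMap.toMatrix_eq_toMatrix',
      LinearMap.toMatrix'_toLin']
    rfl
  have h8 : LinearMap.toMatrix (stdBasis ℓ A.rank) (stdBasis ℓ A.rank) (rep (A.G.ρ ℓ) s) =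
      Pool.Agent.H850.TF.rat (A.G.ρ ℓ) s := LinearMap.toMatrix_toLin _ _ _
  have h9 := congrArg (LinearMap.toMatrix (stdBasis ℓ A.rank) (stdBasis ℓ A.rank)) h6
  rw [LinearMap.toMatrix_mul, LinearMap.toMatrix_mul, h7, h8] at h9
  exact h9.symm

/-- a dense pair decides -/
theorem decides_of_dense (hconn : ∀ σ, σ ∈ conn (A.G.ρ ℓ)) {x y : GK F} (h : A.Dense ℓ x y)
    (hb : A.ContainsBrackets ℓ x y) (ho : A.NoTypeIV → A.OpenImage ℓ x y) :
    A.Decides ℓ x y := by
  obtain ⟨J', hJ⟩ := gram_inv A ℓ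
  have hZ : ZD (A.G.ρ ℓ) x y := h
  have hχ := toRat_ne A ℓ
  -- forms fixed by the two elements are fixed by the group
  have hall : ∀ (m : ℕ) (φ : Form ℚ_[ℓ] (Fin A.rank → ℚ) m),
      Fixes (rep (A.G.ρ ℓ)) (toRat (A.G.χ ℓ)) x m φ →
      Fixes (rep (A.G.ρ ℓ)) (toRat (A.G.χ ℓ)) y m φ →
      ∀ σ, Fixes (rep (A.G.ρ ℓ)) (toRat (A.G.χ ℓ)) σ m φ := fun m φ h1 h2 σ =>
    hZ.fixed (b := stdBasis ℓ A.rank) hχ hJ (A.pairing ℓ) h1 h2 σ
  have htate : DetectTate (rep (A.G.ρ ℓ)) (toRat (A.G.χ ℓ)) x y := by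
    intro m φ
    constructor
    · rintro ⟨Δ, hΔ, h1⟩
      have h2 : ∀ σ, Fixes (rep (A.G.ρ ℓ)) (toRat (A.G.χ ℓ)) σ m φ := fun σ =>
        fixed_of_finiteIndex (b := stdBasis ℓ A.rank) (A.G.cont ℓ) hconn hχ hJ (A.pairing ℓ) Δ hΔ h1 σ
      exact ⟨h2 x, h2 y⟩
    · rintro ⟨h1, h2⟩
      exact ⟨⊤, inferInstance, fun s _ => hall m φ h1 h2 s⟩
  have hω := fun (s : GK F) (u v : ℚ_[ℓ] ⊗[ℚ] (Fin A.rank → ℚ)) =>
    pairing_invariant (stdBasis ℓ A.rank) (A.pairing ℓ s) u v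
  have hcont : Pool.Agent.Q69.MTQ.ContinuousRep (rep (A.G.ρ ℓ)) := fun f v =>
    continuous_coeff (stdBasis ℓ A.rank) (A.G.cont ℓ) f v
  have hcχ : Continuous (toRat (A.G.χ ℓ)) := continuous_subtype_val.comp (A.G.cont_χ ℓ)
  obtain ⟨Θ, h1, h2, h3⟩ := Pool.Agent.Q69.MTQ.one_class A.H.per (rep (A.G.ρ ℓ)) (toRat (A.G.χ ℓ)) A.H.form
    (Matrix.toLinearMap₂ (stdBasis ℓ A.rank) (stdBasis ℓ A.rank) (gram ℓ A.H.form)) A.H.rational
    A.H.riemann (pairing_rational A ℓ) hω hcont hcχ (A.G.semisimple ℓ) (A.faltings ℓ) (A.deligne ℓ)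
    (A.centres ℓ)
  refine ⟨h, hb, ho, htate, ?_, ?_, ?_⟩
  · intro Q hx hy
    refine A.faltings ℓ Q ⟨⊤, inferInstance, fun s _ v => ?_⟩
    have h4 := hZ.endo' (stdBasis ℓ A.rank) (Q := Q) (LinearMap.ext fun v => hx v)
      (LinearMap.ext fun v => hy v) s
    exact congrArg (fun R : Module.End ℚ_[ℓ] (ℚ_[ℓ] ⊗[ℚ] (Fin A.rank → ℚ)) => R v) h4
  · constructor
    · intro hMT φ hx hy
      exact hMT 2 φ ((htate 2 φ).2 ⟨hx, hy⟩)
    · intro hall2
      exact (h2.out 0 2).1 (hall2 Θ (h1 x) (h1 y))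
  · intro Alg hAlg
    rw [h3 Alg hAlg]
    constructor
    · rintro ⟨hH, hΘ⟩
      refine ⟨hH, fun φ hx hy => ?_⟩
      exact ((h3 Alg hAlg).2 ⟨hH, hΘ⟩) 2 φ ((htate 2 φ).2 ⟨hx, hy⟩)
    · rintro ⟨hH, hall2⟩
      exact ⟨hH, hall2 Θ (h1 x) (h1 y)⟩

variable [MeasurableSpace (GK F)] [BorelSpace (GK F)] (μ : Measure (GK F)) [μ.IsHaarMeasure]
  [μ.OuterRegular]

include μ in
/-- the monodromy groups are connected for all primes if one of them is -/
theorem connected_all {q : ℕ} [Fact q.Prime] (hq : A.Connected q) (σ : GK F) :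
    σ ∈ conn (A.G.ρ ℓ) := by
  refine conn_of_dual A ℓ (fun σ => ?_) σ
  exact Pool.Agent.H850.LA.conn_of_conn (fun ℓ _ => dual (A.G.ρ ℓ)) μ A.R.bad_finite A.R.frob
    (fun ℓ _ => continuous_dual (A.G.cont ℓ))
    (fun ℓ _ v hv hvℓ σ hσ => dual_eq_one (A.R.unramified ℓ v hv hvℓ σ hσ))
    (fun ℓ _ v hv hvℓ σ hσ => by
      rw [rat_dual, inv_inv, Matrix.charpoly_transpose]
      exact A.R.charpoly ℓ v hv hvℓ σ hσ) q (semisimple_dual A q)
    (conn_dual A q ((connected_iff A q).1 hq)) ℓ (semisimple_dual A ℓ) σ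

/-- Zariski dense pairs of powers generate large groups -/
theorem large {v : HeightOneSpectrum (𝓞 F)} (hv : v ∉ A.R.bad) (hvℓ : (ℓ : 𝓞 F) ∉ v.asIdeal)
    (hconn : ∀ σ, σ ∈ conn (A.G.ρ ℓ)) {α β : GK F} (hα : IsFrob v α)
    (hZ : ∀ k : ℕ, k ≠ 0 → ZD (A.G.ρ ℓ) (α ^ k) (β ^ k)) {k : ℕ} (hk : k ≠ 0) :
    A.Decides ℓ (α ^ k) (β ^ k) := by
  obtain ⟨m, hm, hU⟩ := Pool.Agent.H850.LA.exists_pow_U1 (A.G.ρ ℓ) (A.G.cont ℓ)
  have hlie : ∀ (H : Subgroup (GK F)) X, A.InLie ℓ H X ↔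
      X ∈ Pool.Agent.H850.LA.tanH (A.G.ρ ℓ) H := fun H X =>
    (Pool.Agent.H850.LA.mem_tanH (A.G.ρ ℓ) H X).symm
  refine decides_of_dense A ℓ hconn (hZ k hk) (fun X Y hX hY => ?_) (fun hE => ?_)
  · rw [hlie] at hX hY ⊢
    exact Pool.Agent.H850.LA.derived_le (A.G.ρ ℓ) hZ hm (hU _) (hU _) hk hX hY
  · by_cases hn : A.rank = 0
    · refine ⟨⊥, inferInstance, fun σ _ => subset_closure ⟨1, Subgroup.one_mem _, ?_⟩⟩
      ext i
      exact absurd i.2 (by omega)
    · have hdet : ∀ j : ℕ, j ≠ 0 → (Pool.Agent.H850.TF.rat (A.G.ρ ℓ) α).det ^ j ≠ 1 := by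
        intro j hj
        have hq : 2 ≤ Ideal.absNorm v.asIdeal := by
          have h0 : Ideal.absNorm v.asIdeal ≠ 1 := by
            rw [Ne, Ideal.absNorm_eq_one_iff]
            exact v.isPrime.ne_top
          have h0' : Ideal.absNorm v.asIdeal ≠ 0 := by
            rw [Ne, Ideal.absNorm_eq_zero_iff]
            exact v.ne_bot
          omega
        exact Pool.Agent.H850.LA.det_pow_ne (A.R.charpoly ℓ v hv hvℓ α hα) hq one_ne_zero hn
          (fun z hz => by rw [pow_one]; exact A.R.weil v hv z hz) hj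
      obtain ⟨N, hN⟩ := Pool.Agent.H850.LA.closure_open (A.G.ρ ℓ) hZ hm (hU _) (hU _) hdet
        (Z := 1) (fun X hX => Pool.Agent.H850.LA.scalar_centre (A.G.ρ ℓ) (A.G.cont ℓ)
          (semisimple_CR A ℓ) hconn (fun X hXL hX => scalar_of_noTypeIV A ℓ hE hconn hXL hX) hX) hk
      obtain ⟨L, hL, hLN⟩ := exists_field
        (Pool.Agent.H850.LA.isOpen_levSub (A.G.ρ ℓ) (A.G.cont ℓ) N)
      exact ⟨L, hL, fun σ hσ => hN σ (hLN hσ)⟩

/-- The bad places have density zero. -/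
theorem bad_null {q : ℕ} [Fact q.Prime] (hq : A.Connected q) :
    Tendsto (dens fun v : HeightOneSpectrum (𝓞 F) => ¬ ∀ α, IsFrob v α → ∀ᵐ γ ∂μ,
      IsFrob v (γ * α * γ⁻¹) ∧ A.DecidesAll v α (γ * α * γ⁻¹)) atTop (𝓝 0) := by
  have h1 := zgood_null (fun ℓ _ => dual (A.G.ρ ℓ)) μ A.R.bad_finite A.R.frob 1
    (fun v hv z hz => by rw [pow_one]; exact A.R.weil v hv z hz)
    (fun ℓ _ => continuous_dual (A.G.cont ℓ))
    (fun ℓ _ v hv hvℓ σ hσ => dual_eq_one (A.R.unramified ℓ v hv hvℓ σ hσ))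
    (fun ℓ _ v hv hvℓ σ hσ => by
      rw [rat_dual, inv_inv, Matrix.charpoly_transpose]
      exact A.R.charpoly ℓ v hv hvℓ σ hσ)
  have h2 := Pool.Agent.X320.DS.dens_finite _ A.R.bad_finite
  have h3 := h1.add h2
  rw [add_zero] at h3
  refine squeeze_zero (fun N => dens_nonneg _ N) (fun N => le_trans (dens_mono (fun v hv => ?_) N)
    (dens_or _ _ N)) h3
  by_contra hcon
  rw [not_or, not_not] at hcon
  obtain ⟨hgood, hbad⟩ := hcon
  apply hv
  intro α hα
  filter_upwards [hgood α hα] with γ hγ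
  refine ⟨isFrob_conj hα γ, fun ℓ hℓ hvℓ k hk => ?_⟩
  have hconn := connected_all A ℓ μ hq
  exact large A ℓ hbad hvℓ hconn hα (fun k hk => ZD_of_dual (hγ ℓ hvℓ (semisimple_dual A ℓ)
    (conn_dual A ℓ hconn) k hk)) hk

end Proofs

/-- **Two Frobenius elements at one place decide the Mumford-Tate conjecture.** Let `A` be an
abelian variety over the number field `F` such that the `ℓ₀`-adic monodromy group is connected over
`F` for one prime `ℓ₀` (this holds over a finite extension of `F`). For all places `v` in a set of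
density one and all Frobenius elements `α` at `v`, almost all conjugates `β = γ α γ⁻¹` have the
following properties for ALL primes `ℓ` prime to `v` and all `k ≥ 1`: the group generated by `α ^ k`
and `β ^ k` is Zariski dense in the image of the Galois group; the Lie algebra of its closure contains
all brackets of the `ℓ`-adic Lie algebra; its closure is open in the image of the Galois group if
`A` has no simple factor of type IV; a class in `(H^1 ^ {⊗ 2 m}) (m)` is a Tate class if and only if it is fixed by `α ^ k`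
and `β ^ k`, for all `m`; the endomorphisms of the Tate module commuting with `α ^ k` and `β ^ k` are
`ℚ_ℓ`-combinations of endomorphisms of `A`; the Mumford-Tate conjecture for `A` and its powers holds
at `ℓ` if and only if all classes in `(H^1 ^ {⊗ 4}) (2)` fixed by `α ^ k` and `β ^ k` are combinations
of Hodge classes; and the Tate conjecture for `A` and its powers holds at `ℓ` if and only if the
Hodge conjecture does and all these classes in `(H^1 ^ {⊗ 4}) (2)` are algebraic. -/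
theorem result [MeasurableSpace (GK F)] [BorelSpace (GK F)] (μ : Measure (GK F))
    [μ.IsHaarMeasure] [μ.OuterRegular] (A : AbelianVariety F) (ℓ₀ : ℕ) [Fact ℓ₀.Prime]
    (hA : A.Connected ℓ₀) :
    ∃ P : HeightOneSpectrum (𝓞 F) → Prop, Tendsto (dens P) atTop (𝓝 1) ∧
      ∀ v, P v → ∀ α, IsFrob v α → ∀ᵐ γ ∂μ,
        IsFrob v (γ * α * γ⁻¹) ∧ A.DecidesAll v α (γ * α * γ⁻¹) := by
  refine ⟨_, Pool.Agent.H850.RG.dens_compl (bad_null A μ hA), fun v hv => ?_⟩
  rwa [not_not] at hv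

end Pool.Agent.Results.MP_33b3f9_ag.TwoFrobeniusElements
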